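import Mathlib

set_option autoImplicit false

/-!
# Small integer solutions of linear systems over the integers
-/

namespace Pool.Agent.Q330.HP

open Finset

/-- the bound for the minors -/
def DD (m L : ℕ) : ℕ := m.factorial * L ^ m

/-- the bound for the coefficients -/
def KK (m I L : ℕ) : ℕ := DD m L + m * (m * (L + I * (DD m L * L)) * DD m L)

variable {κ ι : Type} [Fintype κ] [DecidableEq κ] [Fintype ι]

lemma exists_base (u : ι → κ → ℤ) (hspan : Submodule.span ℤ (Set.range u) = ⊤) :
    ∃ g : κ → ι, (Matrix.of (fun a c => u (g a) c) : Matrix κ κ ℤ).det ≠ 0 := by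
  classical
  set uq : ι → κ → ℚ := fun w c => (u w c : ℚ) with huq
  have h1 : ∀ y : κ → ℤ, (fun c => (y c : ℚ)) ∈ Submodule.span ℚ (Set.range uq) := by
    intro y
    have hy : y ∈ Submodule.span ℤ (Set.range u) := by rw [hspan]; trivial
    obtain ⟨z, hz⟩ := (Submodule.mem_span_range_iff_exists_fun ℤ).1 hy
    have : (fun c => (y c : ℚ)) = ∑ w, (z w : ℚ) • uq w := by
      funext c
      rw [← hz, Finset.sum_apply, Finset.sum_apply]
      push_cast
      refine Finset.sum_congr rfl fun w _ => ?_
      simp [huq]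
    rw [this]
    exact Submodule.sum_mem _ fun w _ => Submodule.smul_mem _ _
      (Submodule.subset_span ⟨w, rfl⟩)
  have h2 : Submodule.span ℚ (Set.range uq) = ⊤ := by
    rw [eq_top_iff]
    intro v _
    have : v = ∑ c, v c • (fun a => ((Pi.single c (1 : ℤ) : κ → ℤ) a : ℚ)) := by
      funext a
      rw [Finset.sum_apply, Finset.sum_eq_single a]
      · simp
      · intro b _ hb
        simp [Pi.single_apply, hb.symm]
      · simp
    rw [this]
    exact Submodule.sum_mem _ fun c _ => Submodule.smul_mem _ _ (h1 _)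
  obtain ⟨b, hb1, hb2, hb3⟩ := exists_linearIndependent ℚ (Set.range uq)
  rw [h2] at hb2
  have hb4 : ⊤ ≤ Submodule.span ℚ (Set.range ((↑) : b → κ → ℚ)) := by
    rw [Subtype.range_coe, hb2]
  let B : Module.Basis b ℚ (κ → ℚ) := Module.Basis.mk hb3 hb4
  have : Fintype b := FiniteDimensional.fintypeBasisIndex B
  have hcard : Fintype.card κ = Fintype.card b := by
    rw [← Module.finrank_eq_card_basis B, Module.finrank_fintype_fun_eq_card]
  let e : κ ≃ b := Fintype.equivOfCardEq hcard
  have hg : ∀ a : κ, ∃ w, uq w = (e a).1 := fun a => hb1 (e a).2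
  choose g hg using hg
  refine ⟨g, ?_⟩
  have h3 : LinearIndependent ℚ (fun a => uq (g a)) := by
    have : (fun a => uq (g a)) = ((↑) : b → κ → ℚ) ∘ e := by
      funext a
      exact hg a
    rw [this]
    exact hb3.comp e e.injective
  have h4 : IsUnit ((Matrix.of (fun a c => u (g a) c) : Matrix κ κ ℤ).map (Int.cast : ℤ → ℚ)) := by
    rw [← Matrix.linearIndependent_rows_iff_isUnit]
    exact h3
  rw [Matrix.isUnit_iff_isUnit_det] at h4
  have h5 := h4.ne_zero
  intro h6
  apply h5
  have h7 := RingHom.map_det (Int.castRingHom ℚ)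
    (Matrix.of (fun a c => u (g a) c) : Matrix κ κ ℤ)
  rw [h6, map_zero] at h7
  exact h7.symm

theorem bounded_solution (u : ι → κ → ℤ) (L : ℕ) (hL : 1 ≤ L) (hu : ∀ w c, |u w c| ≤ L)
    (hspan : Submodule.span ℤ (Set.range u) = ⊤) (x : κ → ℤ) (hx : ∀ c, |x c| ≤ L) :
    ∃ z : ι → ℤ, ∑ w, z w • u w = x ∧
      ∀ w, |z w| ≤ KK (Fintype.card κ) (Fintype.card ι) L := by
  classical
  obtain ⟨g, hg⟩ := exists_base u hspan
  set A : Matrix κ κ ℤ := Matrix.of (fun a c => u (g a) c) with hA
  set m := Fintype.card κ with hm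
  set I := Fintype.card ι with hI
  have hLz : (1 : ℤ) ≤ L := by exact_mod_cast hL
  have hdet : |A.det| ≤ DD m L := by
    have := Matrix.det_le (abv := (AbsoluteValue.abs : AbsoluteValue ℤ ℤ)) (A := A) (x := (L : ℤ))
      (fun i j => hu _ _)
    simpa [DD, hm] using this
  have hadj : ∀ i j, |A.adjugate i j| ≤ DD m L := by
    intro i j
    rw [Matrix.adjugate_apply]
    have := Matrix.det_le (abv := (AbsoluteValue.abs : AbsoluteValue ℤ ℤ))
      (A := A.updateRow j (Pi.single i 1)) (x := (L : ℤ)) (fun a b => by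
        rw [Matrix.updateRow_apply]
        split_ifs
        · rw [Pi.single_apply]
          split_ifs
          · simpa using hLz
          · simp
        · exact hu _ _)
    simpa [DD, hm] using this
  have hx' : x ∈ Submodule.span ℤ (Set.range u) := by rw [hspan]; trivial
  obtain ⟨z0, hz0⟩ := (Submodule.mem_span_range_iff_exists_fun ℤ).1 hx'
  set D0 : ℤ := |A.det| with hD0
  have hD0pos : 0 < D0 := abs_pos.2 hg
  obtain ⟨σ, hσ, hσ2⟩ : ∃ σ : ℤ, σ * A.det = D0 ∧ |σ| = 1 := by
    rcases le_or_gt 0 A.det with h | h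
    · exact ⟨1, by rw [hD0, abs_of_nonneg h, one_mul], by simp⟩
    · exact ⟨-1, by rw [hD0, abs_of_neg h]; ring, by simp⟩
  set s : ι → ℤ := fun w => z0 w % D0 with hs
  set v : κ → ℤ := ∑ w, (z0 w / D0) • u w with hv
  have h1 : D0 • v = x - ∑ w, s w • u w := by
    rw [hv, Finset.smul_sum, ← hz0, ← Finset.sum_sub_distrib]
    apply Finset.sum_congr rfl
    intro w _
    rw [smul_smul, ← sub_smul]
    congr 1
    have := Int.mul_ediv_add_emod (z0 w) D0
    simp only [hs]
    linarith
  have hs0 : ∀ w, 0 ≤ s w := fun w => Int.emod_nonneg _ hD0pos.ne'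
  have hs1 : ∀ w, s w < D0 := fun w => Int.emod_lt_of_pos _ hD0pos
  have hvb : ∀ c, |v c| ≤ L + I * (DD m L * L) := by
    intro c
    have h2 : |v c| ≤ |(D0 • v) c| := by
      rw [Pi.smul_apply, smul_eq_mul, abs_mul, abs_of_pos hD0pos]
      exact le_mul_of_one_le_left (abs_nonneg _) hD0pos
    refine h2.trans ?_
    rw [h1, Pi.sub_apply, Finset.sum_apply]
    refine (abs_sub _ _).trans ?_
    apply add_le_add (hx c)
    refine (Finset.abs_sum_le_sum_abs _ _).trans ?_
    have : ∀ w ∈ (univ : Finset ι), |(s w • u w) c| ≤ (DD m L : ℤ) * L := by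
      intro w _
      rw [Pi.smul_apply, smul_eq_mul, abs_mul, abs_of_nonneg (hs0 w)]
      exact mul_le_mul ((hs1 w).le.trans hdet) (hu w c) (abs_nonneg _) (by positivity)
    refine (Finset.sum_le_card_nsmul _ _ _ this).trans ?_
    rw [Finset.card_univ, nsmul_eq_mul]
  set y : κ → ℤ := σ • (Matrix.vecMul v A.adjugate) with hy
  have hyA : ∑ a, y a • u (g a) = D0 • v := by
    have h2 : Matrix.vecMul y A = D0 • v := by
      rw [hy, Matrix.smul_vecMul, Matrix.vecMul_vecMul, Matrix.adjugate_mul, Matrix.vecMul_smul,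
        Matrix.vecMul_one, smul_smul, hσ]
    rw [← h2]
    funext c
    rw [Finset.sum_apply]
    rfl
  have hyb : ∀ a, |y a| ≤ m * (L + I * (DD m L * L)) * DD m L := by
    intro a
    rw [hy, Pi.smul_apply, smul_eq_mul, abs_mul, hσ2, one_mul]
    unfold Matrix.vecMul dotProduct
    refine (Finset.abs_sum_le_sum_abs _ _).trans ?_
    have : ∀ c ∈ (univ : Finset κ), |v c * A.adjugate c a| ≤
        ((L : ℤ) + I * (DD m L * L)) * DD m L := by
      intro c _
      rw [abs_mul]
      exact mul_le_mul (hvb c) (hadj c a) (abs_nonneg _) (by positivity)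
    refine (Finset.sum_le_card_nsmul _ _ _ this).trans ?_
    rw [Finset.card_univ, nsmul_eq_mul, ← hm, mul_assoc]
  refine ⟨fun w => s w + ∑ a, if g a = w then y a else 0, ?_, ?_⟩
  · have h2 : ∀ w, (s w + ∑ a, if g a = w then y a else 0) • u w =
        s w • u w + ∑ a, (if g a = w then y a • u w else 0) := by
      intro w
      rw [add_smul, Finset.sum_smul]
      congr 1
      apply Finset.sum_congr rfl
      intro a _
      split_ifs
      · rfl
      · rw [zero_smul]
    rw [Finset.sum_congr rfl (fun w _ => h2 w), Finset.sum_add_distrib, Finset.sum_comm]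
    have h3 : ∀ a : κ, ∑ w, (if g a = w then y a • u w else 0) = y a • u (g a) := by
      intro a
      rw [Finset.sum_ite_eq]
      simp
    rw [Finset.sum_congr rfl (fun a _ => h3 a), hyA, h1]
    abel
  · intro w
    have h2 : |s w| ≤ DD m L := by
      rw [abs_of_nonneg (hs0 w)]
      exact (hs1 w).le.trans hdet
    have h3 : |∑ a, (if g a = w then y a else 0)| ≤
        m * (m * (L + I * (DD m L * L)) * DD m L) := by
      refine (Finset.abs_sum_le_sum_abs _ _).trans ?_
      have : ∀ a ∈ (univ : Finset κ), |(if g a = w then y a else 0)| ≤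
          (m : ℤ) * (L + I * (DD m L * L)) * DD m L := by
        intro a _
        split_ifs
        · exact hyb a
        · rw [abs_zero]
          positivity
      refine (Finset.sum_le_card_nsmul _ _ _ this).trans ?_
      rw [Finset.card_univ, nsmul_eq_mul, ← hm]
    refine (abs_add_le _ _).trans ((add_le_add h2 h3).trans ?_)
    unfold KK
    push_cast
    exact le_refl _

end Pool.Agent.Q330.HP
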