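import Mathlib
import Pool.Agent.Q330.HP.Bound

set_option autoImplicit false

/-!
# Walks with prescribed numbers of colours
-/

namespace Pool.Agent.Q330.HP

open Finset

/-- there is a walk from `i` to `j` whose edges have the colours `d` -/
def Wk (E : ℕ → ℕ → ℕ → Prop) : List ℕ → ℕ → ℕ → Prop
  | [], i, j => i = j
  | c :: d, i, j => ∃ k, E c i k ∧ Wk E d k j

variable {E : ℕ → ℕ → ℕ → Prop}

lemma wk_append {d d' : List ℕ} {i j : ℕ} :
    Wk E (d ++ d') i j ↔ ∃ k, Wk E d i k ∧ Wk E d' k j := by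
  induction d generalizing i with
  | nil => simp [Wk]
  | cons c d ih =>
    simp only [List.cons_append, Wk, ih]
    constructor
    · rintro ⟨a, h1, b, h2, h3⟩
      exact ⟨b, ⟨a, h1, h2⟩, h3⟩
    · rintro ⟨b, ⟨a, h1, h2⟩, h3⟩
      exact ⟨a, h1, b, h2, h3⟩

/-- the edges join vertices smaller than `n` and have colours smaller than `m` -/
def Bdd (E : ℕ → ℕ → ℕ → Prop) (m n : ℕ) : Prop := ∀ c u v, E c u v → c < m ∧ u < n ∧ v < n

lemma wk_lt {m n : ℕ} (hE : Bdd E m n) {d : List ℕ} {i j : ℕ} (h : Wk E d i j) (hi : i < n) :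
    j < n := by
  induction d generalizing i with
  | nil => exact h ▸ hi
  | cons c d ih =>
    obtain ⟨k, h1, h2⟩ := h
    exact ih h2 (hE _ _ _ h1).2.2

lemma wk_used {d : List ℕ} {i j : ℕ} (h : Wk E d i j) : ∀ c ∈ d, ∃ u v, E c u v := by
  induction d generalizing i with
  | nil => simp
  | cons c d ih =>
    obtain ⟨k, h1, h2⟩ := h
    intro c' hc'
    rw [List.mem_cons] at hc'
    rcases hc' with rfl | h3
    · exact ⟨_, _, h1⟩
    · exact ih h2 c' h3

lemma exists_short {m n : ℕ} (hE : Bdd E m n) {i j : ℕ} (hi : i < n) (h : ∃ d, Wk E d i j) :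
    ∃ d, Wk E d i j ∧ d.length < n := by
  obtain ⟨d, hd⟩ := h
  induction hN : d.length using Nat.strong_induction_on generalizing d with
  | _ N ih =>
    by_cases hlt : d.length < n
    · exact ⟨d, hd, hlt⟩
    · have h1 : ∀ t : Fin (d.length + 1), ∃ k : Fin n, Wk E (d.take t) i k ∧
          Wk E (d.drop t) k j := by
        intro t
        have h2 : Wk E (d.take t ++ d.drop t) i j := by rwa [List.take_append_drop]
        obtain ⟨k, h3, h4⟩ := wk_append.1 h2
        exact ⟨⟨k, wk_lt hE h3 hi⟩, h3, h4⟩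
      choose f hf using h1
      obtain ⟨s, t, hst, hft⟩ := Fintype.exists_ne_map_eq_of_card_lt f (by simp; omega)
      wlog hlt' : s < t generalizing s t
      · exact this t s hst.symm hft.symm (lt_of_le_of_ne (not_lt.1 hlt') hst.symm)
      have h5 : Wk E (d.take s ++ d.drop t) i j :=
        wk_append.2 ⟨f s, (hf s).1, by rw [hft]; exact (hf t).2⟩
      refine ih _ ?_ _ h5 rfl
      have hs := s.2
      have ht := t.2
      have : (s : ℕ) < t := hlt'
      rw [← hN, List.length_append, List.length_take, List.length_drop]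
      omega

/-! ### The closed walks -/

/-- The words `W` contain, for all edges `(c, u, v)`, the word `P u ++ c :: Q v`, and, for all
vertices `v`, the word `P v ++ Q v`; all are closed walks at `0`. -/
structure Good (E : ℕ → ℕ → ℕ → Prop) (m n : ℕ) (P Q : ℕ → List ℕ) (W : List (List ℕ)) : Prop where
  bdd : Bdd E m n
  pos : 0 < n
  fwd : ∀ v < n, Wk E (P v) 0 v
  bwd : ∀ v < n, Wk E (Q v) v 0
  lenP : ∀ v < n, (P v).length ≤ n
  lenQ : ∀ v < n, (Q v).length ≤ n
  edge : ∀ c u v, E c u v → P u ++ c :: Q v ∈ W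
  vert : ∀ v < n, P v ++ Q v ∈ W
  closed : ∀ w ∈ W, Wk E w 0 0
  lenW : ∀ w ∈ W, w.length ≤ 2 * n + 1

/-- the numbers of the colours of a word -/
def cv (m : ℕ) (w : List ℕ) : Fin m → ℤ := fun c => (w.count (c : ℕ) : ℤ)

lemma cv_append (m : ℕ) (w w' : List ℕ) : cv m (w ++ w') = cv m w + cv m w' := by
  funext c
  simp [cv]

lemma cv_cons (m : ℕ) (c : Fin m) (w : List ℕ) : cv m ((c : ℕ) :: w) = Pi.single c 1 + cv m w := by
  funext a
  simp only [cv, List.count_cons, Pi.add_apply, Pi.single_apply]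
  by_cases h : a = c
  · subst h
    simp
    ring
  · have : ((c : ℕ) == (a : ℕ)) = false := by
      simp only [beq_eq_false_iff_ne, ne_eq]
      exact fun h' => h (Fin.ext h'.symm)
    simp [h, this]

variable {m n : ℕ} {P Q : ℕ → List ℕ} {W : List (List ℕ)}

/-- the vectors of the words, and unit vectors for the colours which are not used -/
noncomputable def vecs (E : ℕ → ℕ → ℕ → Prop) (m : ℕ) (W : List (List ℕ)) :
    Fin W.length ⊕ Fin m → Fin m → ℤ := by
  classical
  exact Sum.elim (fun i => cv m (W.get i))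
    (fun c => if ∃ u v, E c u v then 0 else Pi.single c 1)

lemma mem_span_word (E : ℕ → ℕ → ℕ → Prop) (m : ℕ) {w : List ℕ} (hw : w ∈ W) :
    cv m w ∈ Submodule.span ℤ (Set.range (vecs E m W)) := by
  obtain ⟨i, hi⟩ := List.get_of_mem hw
  apply Submodule.subset_span
  refine ⟨Sum.inl i, ?_⟩
  simp only [vecs, Sum.elim_inl]
  rw [hi]

lemma Good.mem_walk (h : Good E m n P Q W) {d : List ℕ} {u v : ℕ} (hd : Wk E d u v) (hu : u < n) :
    cv m (P u) + cv m d + cv m (Q v) ∈ Submodule.span ℤ (Set.range (vecs E m W)) := by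
  induction d generalizing u with
  | nil =>
    have : u = v := hd
    subst this
    have h1 := mem_span_word E m (h.vert u hu)
    rw [cv_append] at h1
    have h2 : cv m [] = 0 := by funext c; simp [cv]
    rw [h2, add_zero]
    exact h1
  | cons c d ih =>
    obtain ⟨k, h1, h2⟩ := hd
    obtain ⟨hc, _, hk⟩ := h.bdd _ _ _ h1
    have h3 := ih h2 hk
    have h4 := mem_span_word E m (h.edge _ _ _ h1)
    have h5 := mem_span_word E m (h.vert k hk)
    rw [cv_append] at h4 h5
    have e1 : cv m (c :: d) = Pi.single ⟨c, hc⟩ 1 + cv m d := cv_cons m ⟨c, hc⟩ d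
    have e2 : cv m (c :: Q k) = Pi.single ⟨c, hc⟩ 1 + cv m (Q k) := cv_cons m ⟨c, hc⟩ (Q k)
    rw [e1]
    rw [e2] at h4
    have h6 := Submodule.sub_mem _ (Submodule.add_mem _ h4 h3) h5
    convert h6 using 1
    abel

lemma Good.span_top (h : Good E m n P Q W) {γ : ℕ → ℕ}
    (hγ : ∀ i < n, ∀ j < n, ∃ d, Wk E d i j ∧ ∀ c < m, d.count c = γ c) :
    Submodule.span ℤ (Set.range (vecs E m W)) = ⊤ := by
  classical
  set S := Submodule.span ℤ (Set.range (vecs E m W)) with hS
  have hd : ∀ d : List ℕ, (∀ c < m, d.count c = γ c) →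
      cv m d = fun c : Fin m => (γ (c : ℕ) : ℤ) := by
    intro d hd
    funext c
    simp [cv, hd c c.2]
  have h1 : (fun c : Fin m => (γ c : ℤ)) ∈ S := by
    obtain ⟨d, hd1, hd2⟩ := hγ 0 h.pos 0 h.pos
    have h2 := h.mem_walk hd1 h.pos
    have h3 := mem_span_word E m (h.vert 0 h.pos)
    rw [cv_append] at h3
    rw [hd d hd2] at h2
    have h4 := Submodule.sub_mem _ h2 h3
    convert h4 using 1
    abel
  have h2 : ∀ c : Fin m, (Pi.single c 1 : Fin m → ℤ) ∈ S := by
    intro c
    by_cases hc : ∃ u v, E c u v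
    · obtain ⟨u, v, huv⟩ := hc
      obtain ⟨_, hu, hv⟩ := h.bdd _ _ _ huv
      obtain ⟨d, hd1, hd2⟩ := hγ u hu v hv
      have h3 := h.mem_walk hd1 hu
      rw [hd d hd2] at h3
      have h4 := mem_span_word E m (h.edge _ _ _ huv)
      rw [cv_append, cv_cons] at h4
      have h5 := Submodule.add_mem _ (Submodule.sub_mem _ h4 h3) h1
      convert h5 using 1
      abel
    · apply Submodule.subset_span
      refine ⟨Sum.inr c, ?_⟩
      simp only [vecs, Sum.elim_inr, if_neg hc]
  rw [eq_top_iff]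
  intro v _
  have : v = ∑ c, v c • (Pi.single c 1 : Fin m → ℤ) := by
    funext a
    rw [Finset.sum_apply, Finset.sum_eq_single a]
    · simp
    · intro b _ hb
      simp [Pi.single_apply, hb.symm]
    · simp
  rw [this]
  exact Submodule.sum_mem _ fun c _ => Submodule.smul_mem _ _ (h2 c)

/-- the bound -/
def KW (m n k : ℕ) : ℕ := KK m (k + m) (2 * n + 1)

lemma Good.coeffs (h : Good E m n P Q W) {γ : ℕ → ℕ}
    (hγ : ∀ i < n, ∀ j < n, ∃ d, Wk E d i j ∧ ∀ c < m, d.count c = γ c) {c : Fin m}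
    (hc : ∃ u v, E c u v) :
    ∃ z : Fin W.length → ℤ, (∑ i, z i • cv m (W.get i) = Pi.single c 1) ∧
      ∀ i, z i ≤ KW m n W.length := by
  classical
  have hb : ∀ w a, |vecs E m W w a| ≤ ((2 * n + 1 : ℕ) : ℤ) := by
    intro w a
    rcases w with i | b
    · simp only [vecs, Sum.elim_inl, cv]
      rw [abs_of_nonneg (by positivity)]
      have := (List.count_le_length (a := (a : ℕ)) (l := W.get i)).trans
        (h.lenW _ (List.get_mem W i))
      exact_mod_cast this
    · simp only [vecs, Sum.elim_inr]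
      split_ifs
      · simp
        positivity
      · rw [Pi.single_apply]
        split_ifs <;> simp <;> omega
  obtain ⟨z, hz1, hz2⟩ := bounded_solution (vecs E m W) (2 * n + 1) (by omega) hb
    (h.span_top hγ) (Pi.single c 1) (by
      intro a
      rw [Pi.single_apply]
      split_ifs <;> simp <;> omega)
  refine ⟨fun i => z (Sum.inl i), ?_, ?_⟩
  · rw [← hz1, Fintype.sum_sum_type]
    have h1 : ∑ b : Fin m, z (Sum.inr b) • vecs E m W (Sum.inr b) = 0 := by
      apply Finset.sum_eq_zero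
      intro b _
      by_cases hb : ∃ u v, E b u v
      · simp only [vecs, Sum.elim_inr, if_pos hb, smul_zero]
      · have h2 := congrFun hz1 b
        rw [Fintype.sum_sum_type, Pi.add_apply, Finset.sum_apply, Finset.sum_apply] at h2
        have h3 : ∑ i : Fin W.length, (z (Sum.inl i) • vecs E m W (Sum.inl i)) b = 0 := by
          apply Finset.sum_eq_zero
          intro i _
          simp only [vecs, Sum.elim_inl, cv, Pi.smul_apply, smul_eq_mul]
          have : (W.get i).count (b : ℕ) = 0 := by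
            rw [List.count_eq_zero]
            intro hmem
            exact hb (wk_used (h.closed _ (List.get_mem W i)) _ hmem)
          rw [this]
          simp
        have h4 : ∑ a : Fin m, (z (Sum.inr a) • vecs E m W (Sum.inr a)) b = z (Sum.inr b) := by
          rw [Finset.sum_eq_single b]
          · simp [vecs, hb]
          · intro a _ hab
            simp only [vecs, Sum.elim_inr]
            split_ifs
            · simp
            · simp [Pi.single_apply, hab.symm]
          · simp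
        rw [h3, h4, zero_add] at h2
        have h5 : (Pi.single c (1 : ℤ) : Fin m → ℤ) b = 0 := by
          rw [Pi.single_apply, if_neg]
          rintro rfl
          exact hb hc
        rw [h2, h5, zero_smul]
    rw [h1, add_zero]
    rfl
  · intro i
    have := hz2 (Sum.inl i)
    rw [Fintype.card_sum, Fintype.card_fin, Fintype.card_fin] at this
    exact (le_abs_self _).trans this

/-! ### Closed walks with many edges of each colour -/

/-- the total number of the edges with colour `c` in the words -/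
def beta (W : List (List ℕ)) (c : ℕ) : ℕ := (W.flatten).count c

/-- the numbers `a` are the numbers of colours of a closed walk at `0` -/
def Cl (E : ℕ → ℕ → ℕ → Prop) (m : ℕ) (a : Fin m → ℕ) : Prop :=
  ∃ d, Wk E d 0 0 ∧ ∀ c : Fin m, d.count (c : ℕ) = a c

lemma Cl.zero (E : ℕ → ℕ → ℕ → Prop) (m : ℕ) : Cl E m 0 := ⟨[], rfl, by simp⟩

lemma Cl.add {a b : Fin m → ℕ} (ha : Cl E m a) (hb : Cl E m b) : Cl E m (a + b) := by
  obtain ⟨d, h1, h2⟩ := ha
  obtain ⟨d', h3, h4⟩ := hb
  refine ⟨d ++ d', wk_append.2 ⟨0, h1, h3⟩, fun c => ?_⟩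
  rw [List.count_append, h2, h4]
  rfl

lemma Cl.smul {a : Fin m → ℕ} (ha : Cl E m a) (k : ℕ) : Cl E m (k • a) := by
  induction k with
  | zero => rw [zero_smul]; exact Cl.zero E m
  | succ k ih => rw [succ_nsmul]; exact ih.add ha

lemma Cl.sum {ι : Type} (s : Finset ι) {a : ι → Fin m → ℕ} (ha : ∀ i ∈ s, Cl E m (a i)) :
    Cl E m (∑ i ∈ s, a i) := by
  classical
  induction s using Finset.induction_on with
  | empty => rw [Finset.sum_empty]; exact Cl.zero E m
  | insert i s hi ih =>
    rw [Finset.sum_insert hi]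
    exact (ha i (by simp)).add (ih fun j hj => ha j (by simp [hj]))

lemma beta_eq (W : List (List ℕ)) (c : ℕ) : beta W c = ∑ i : Fin W.length, (W.get i).count c := by
  unfold beta
  rw [List.count_flatten]
  rw [← List.sum_ofFn]
  congr 1
  conv_lhs => rw [← List.ofFn_get W]
  rw [List.map_ofFn]
  rfl

lemma Good.cl_beta (h : Good E m n P Q W) : Cl E m (fun c => beta W c) := by
  have : (fun c : Fin m => beta W c) = ∑ i : Fin W.length, fun c : Fin m =>
      (W.get i).count (c : ℕ) := by
    funext c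
    rw [beta_eq, Finset.sum_apply]
  rw [this]
  exact Cl.sum _ fun i _ => ⟨W.get i, h.closed _ (List.get_mem W i), fun _ => rfl⟩

/-- `K β - e_c` is the vector of a closed walk -/
lemma Good.cl_letter (h : Good E m n P Q W) {γ : ℕ → ℕ}
    (hγ : ∀ i < n, ∀ j < n, ∃ d, Wk E d i j ∧ ∀ c < m, d.count c = γ c) {c : Fin m}
    (hc : ∃ u v, E c u v) :
    ∃ a : Fin m → ℕ, Cl E m a ∧ ∀ b : Fin m, a b + (Pi.single c 1 : Fin m → ℕ) b =
      KW m n W.length * beta W b := by
  obtain ⟨z, hz1, hz2⟩ := h.coeffs hγ hc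
  set K := KW m n W.length with hK
  refine ⟨∑ i : Fin W.length, (K - z i).toNat • fun b : Fin m => (W.get i).count (b : ℕ),
    Cl.sum _ fun i _ => Cl.smul ⟨W.get i, h.closed _ (List.get_mem W i), fun _ => rfl⟩ _, ?_⟩
  intro b
  have h1 : ((∑ i : Fin W.length, (K - z i).toNat • fun b : Fin m => (W.get i).count (b : ℕ)) b
      + (Pi.single c 1 : Fin m → ℕ) b : ℤ) = (K * beta W b : ℤ) := by
    rw [Finset.sum_apply]
    push_cast
    have h2 : ∀ i : Fin W.length, ((((K - z i).toNat • fun b : Fin m =>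
        (W.get i).count (b : ℕ)) b : ℕ) : ℤ) = K * cv m (W.get i) b - z i * cv m (W.get i) b := by
      intro i
      rw [Pi.smul_apply, smul_eq_mul]
      push_cast
      rw [Int.toNat_of_nonneg (by have := hz2 i; omega)]
      simp only [cv]
      ring
    rw [Finset.sum_congr rfl (fun i _ => h2 i), Finset.sum_sub_distrib, ← Finset.mul_sum]
    have h3 := congrFun hz1 b
    rw [Finset.sum_apply] at h3
    simp only [Pi.smul_apply, smul_eq_mul] at h3
    rw [h3, beta_eq]
    have h4 : ((Pi.single c 1 : Fin m → ℕ) b : ℤ) = (Pi.single c 1 : Fin m → ℤ) b := by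
      simp [Pi.single_apply]
    rw [h4]
    push_cast
    simp only [cv]
    ring
  exact_mod_cast h1

lemma Good.cl_word (h : Good E m n P Q W) {γ : ℕ → ℕ}
    (hγ : ∀ i < n, ∀ j < n, ∃ d, Wk E d i j ∧ ∀ c < m, d.count c = γ c) (x : List ℕ)
    (hx : ∀ c ∈ x, ∃ u v, E c u v) :
    ∃ a : Fin m → ℕ, Cl E m a ∧ ∀ b : Fin m, a b + x.count (b : ℕ) =
      x.length * KW m n W.length * beta W b := by
  induction x with
  | nil => exact ⟨0, Cl.zero E m, by simp⟩
  | cons c x ih =>
    obtain ⟨a, ha1, ha2⟩ := ih fun c' hc' => hx c' (List.mem_cons_of_mem _ hc')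
    obtain ⟨u, v, huv⟩ := hx c List.mem_cons_self
    obtain ⟨a', ha1', ha2'⟩ := h.cl_letter hγ (c := ⟨c, (h.bdd _ _ _ huv).1⟩) ⟨u, v, huv⟩
    refine ⟨a + a', ha1.add ha1', fun b => ?_⟩
    have h1 := ha2 b
    have h2 := ha2' b
    have h3 : (c :: x).count (b : ℕ) =
        (Pi.single (⟨c, (h.bdd _ _ _ huv).1⟩ : Fin m) 1 : Fin m → ℕ) b + x.count (b : ℕ) := by
      rw [List.count_cons, Pi.single_apply, add_comm]
      congr 1
      by_cases hb : b = ⟨c, (h.bdd _ _ _ huv).1⟩
      · subst hb
        simp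
      · rw [if_neg hb, if_neg]
        intro hcb
        apply hb
        apply Fin.ext
        simpa using (beq_iff_eq.1 hcb).symm
    rw [h3, Pi.add_apply, List.length_cons, add_mul, add_mul, one_mul, ← h1, ← h2]
    ring

/-- **The main lemma.** -/
theorem Good.main (h : Good E m n P Q W) {γ : ℕ → ℕ}
    (hγ : ∀ i < n, ∀ j < n, ∃ d, Wk E d i j ∧ ∀ c < m, d.count c = γ c) {N : ℕ}
    (hN : 2 * n * KW m n W.length ≤ N) {i j : ℕ} (hi : i < n) (hj : j < n) :
    ∃ d, Wk E d i j ∧ ∀ c < m, d.count c = N * beta W c := by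
  obtain ⟨a, ha1, ha2⟩ := h.cl_word hγ (Q i ++ P j) (by
    intro c hc
    rw [List.mem_append] at hc
    rcases hc with hc | hc
    · exact wk_used (h.bwd i hi) c hc
    · exact wk_used (h.fwd j hj) c hc)
  set K := KW m n W.length with hK
  have hlen : (Q i ++ P j).length * K ≤ N := by
    refine le_trans (Nat.mul_le_mul_right _ ?_) hN
    rw [List.length_append]
    have := h.lenP j hj
    have := h.lenQ i hi
    omega
  obtain ⟨d, hd1, hd2⟩ := ha1.add (h.cl_beta.smul (N - (Q i ++ P j).length * K))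
  refine ⟨Q i ++ (d ++ P j), wk_append.2 ⟨0, h.bwd i hi, wk_append.2 ⟨0, hd1, h.fwd j hj⟩⟩, ?_⟩
  intro c hc
  have h1 := hd2 ⟨c, hc⟩
  have h2 := ha2 ⟨c, hc⟩
  simp only [Pi.add_apply, Pi.smul_apply, smul_eq_mul] at h1 h2
  rw [List.count_append] at h2
  rw [List.count_append, List.count_append, h1]
  have h3 : N = (Q i ++ P j).length * K + (N - (Q i ++ P j).length * K) := by omega
  have h4 : N * beta W c = (Q i ++ P j).length * K * beta W c +
      (N - (Q i ++ P j).length * K) * beta W c := by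
    rw [← add_mul, ← h3]
  rw [h4, ← h2]
  ring

end Pool.Agent.Q330.HP
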