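import Mathlib
import Pool.Agent.Q330.HP.Walk
import Pool.Agent.Q330.MS.CodePoly

set_option autoImplicit false

/-!
# The algorithm
-/

namespace Pool.Agent.Q330.HP

open Pool.Agent.NPC Pool.Agent.NPC.Poly Pool.Agent.Q330.MS

/-- inputs: a list of matrices, each given by the list of its rows -/
abbrev Inp : Type := List (List (List ℚ))

/-- the number of matrices -/
def mm (x : Inp) : ℕ := x.length

/-- the dimension -/
def nn (x : Inp) : ℕ := (x.getD 0 []).length

/-- the entry `(u, v)` of the matrix with number `c` -/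
def ent (x : Inp) (c u v : ℕ) : ℚ := ((x.getD c []).getD u []).getD v 0

/-- the positive entries -/
def edge (x : Inp) (c u v : ℕ) : Bool :=
  (decide (c < mm x) && (decide (u < nn x) && decide (v < nn x))) && decide (0 < ent x c u v)

/-- extend a path at its end (`b = true`), or at its start -/
def ext (b : Bool) (c : ℕ) (d : List ℕ) : List ℕ := bif b then d ++ [c] else c :: d

/-- an edge from `u` to `v` (`b = true`), or from `v` to `u` -/
def edgeB (x : Inp) (b : Bool) (c u v : ℕ) : Bool := bif b then edge x c u v else edge x c v u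

/-- the extensions of the known paths by an edge -/
def cand (x : Inp) (b : Bool) (T : List (List (List ℕ))) (v : ℕ) : List (List ℕ) :=
  (List.range (nn x)).flatMap fun u => (List.range (mm x)).flatMap fun c =>
    bif edgeB x b c u v then (T.getD u []).map (fun d => ext b c d) else []

/-- a list of length at most one -/
def one (l : List (List ℕ)) : List (List ℕ) := (l.head?).elim [] (fun d => [d])

/-- one round of the search -/
def bstep (x : Inp) (b : Bool) (T : List (List (List ℕ))) : List (List (List ℕ)) :=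
  (List.range (nn x)).map fun v => one (T.getD v [] ++ cand x b T v)

/-- the start of the search -/
def binit (x : Inp) : List (List (List ℕ)) :=
  (List.range (nn x)).map fun v => bif decide (v = 0) then [[]] else []

/-- the result of the search -/
def bres (x : Inp) (b : Bool) : List (List (List ℕ)) := (bstep x b)^[nn x] (binit x)

/-- the path from or to `v` -/
def path (x : Inp) (b : Bool) (v : ℕ) : List ℕ := ((bres x b).getD v []).getD 0 []

/-- the words -/
def words (x : Inp) : List (List ℕ) :=
  ((List.range (mm x)).flatMap fun c => (List.range (nn x)).flatMap fun u =>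
    (List.range (nn x)).flatMap fun v =>
      bif edge x c u v then [path x true u ++ c :: path x false v] else []) ++
  (List.range (nn x)).map fun v => path x true v ++ path x false v

/-- the exponent -/
def expo (x : Inp) : ℕ :=
  3 + nn x + 2 * mm x + ((words x).length + mm x) +
    2 * (mm x * mm x + (2 * nn x + 1) * mm x) + (2 * nn x + 1)

/-- **The algorithm**. -/
def alg (x : Inp) : List ℕ :=
  (List.range (mm x)).map fun c =>
    2 ^ expo x * ((words x).flatten.filter (fun a => decide (a = c))).length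

/-! ### Running time -/

lemma one_eq (l : List (List ℕ)) : one l = l.take 1 := by
  cases l <;> simp [one]

section Poly

variable {α : Type} [TEnc α]

lemma upoly_mm : UPoly mm := UPoly.length id

lemma upoly_nn : UPoly nn := UPoly.length (getD id (const 0) (const []))

lemma poly_ent {x : α → Inp} {c u v : α → ℕ} (hx : Poly x) (hc : Poly c) (hu : Poly u)
    (hv : Poly v) : Poly (fun a => ent (x a) (c a) (u a) (v a)) := by
  unfold ent
  exact getD (getD (getD hx hc (const [])) hu (const [])) hv (const 0)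

lemma poly_pos {q : α → ℚ} (hq : Poly q) : Poly (fun a => decide (0 < q a)) := by
  have h1 : Poly (fun a => ((q a).num, (q a).den)) := Poly.of_toT hq.toT'
  have h2 : Poly (fun a => (q a).num) := fst h1
  have h3 : Poly (fun a => (decide ((q a).num < 0), (q a).num.natAbs)) := Poly.of_toT h2.toT'
  have h4 : Poly (fun a => !(decide ((q a).num < 0)) && decide (0 < (q a).num.natAbs)) :=
    and (not (fst h3)) (decide_lt (const 0) (snd h3))
  refine h4.congr fun a => ?_
  rw [Bool.eq_iff_iff]
  simp only [Bool.and_eq_true, Bool.not_eq_true', decide_eq_false_iff_not, decide_eq_true_eq,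
    Int.natAbs_pos]
  rw [← Rat.num_pos]
  omega

lemma poly_edge {x : α → Inp} {c u v : α → ℕ} (hx : Poly x) (hc : Poly c) (hu : Poly u)
    (hv : Poly v) : Poly (fun a => edge (x a) (c a) (u a) (v a)) := by
  unfold edge
  exact and (and (decide_lt hc (upoly_mm.toPoly.comp hx))
    (and (decide_lt hu (upoly_nn.toPoly.comp hx)) (decide_lt hv (upoly_nn.toPoly.comp hx))))
    (poly_pos (poly_ent hx hc hu hv))

lemma poly_edgeB {x : α → Inp} (b : Bool) {c u v : α → ℕ} (hx : Poly x) (hc : Poly c)
    (hu : Poly u) (hv : Poly v) : Poly (fun a => edgeB (x a) b (c a) (u a) (v a)) := by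
  unfold edgeB
  exact Poly.cond (const b) (poly_edge hx hc hu hv) (poly_edge hx hc hv hu)

lemma poly_ext (b : Bool) {c : α → ℕ} {d : α → List ℕ} (hc : Poly c) (hd : Poly d) :
    Poly (fun a => ext b (c a) (d a)) := by
  unfold ext
  exact Poly.cond (const b) (append hd (cons hc (const []))) (cons hc hd)

lemma poly_one {l : α → List (List ℕ)} (hl : Poly l) : Poly (fun a => one (l a)) := by
  unfold one
  have h := optCases (o := fun a => (l a).head?) (g := fun _ => ([] : List (List ℕ)))
    (h := fun _ d => [d]) (head? hl) (const _) (cons (snd id) (const []))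
  refine h.congr fun a => ?_
  cases (l a).head? <;> rfl

lemma poly_cand {x : α → Inp} (b : Bool) {T : α → List (List (List ℕ))} {v : α → ℕ} (hx : Poly x)
    (hT : Poly T) (hv : Poly v) : Poly (fun a => cand (x a) b (T a) (v a)) := by
  unfold cand
  apply flatMap (F := fun a u => (List.range (mm (x a))).flatMap fun c =>
    bif edgeB (x a) b c u (v a) then ((T a).getD u []).map (fun d => ext b c d) else [])
    (upoly_nn.comp hx).range
  apply flatMap (F := fun (p : α × ℕ) c =>
    bif edgeB (x p.1) b c p.2 (v p.1) then ((T p.1).getD p.2 []).map (fun d => ext b c d) else [])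
    (upoly_mm.comp (hx.comp (fst id))).range
  apply Poly.cond
  · exact poly_edgeB b (hx.comp (fst (fst id))) (snd id) (snd (fst id)) (hv.comp (fst (fst id)))
  · apply map (F := fun (p : (α × ℕ) × ℕ) d => ext b p.2 d)
    · exact getD (hT.comp (fst (fst id))) (snd (fst id)) (const [])
    · exact poly_ext b (snd (fst id)) (snd id)
  · exact const []

lemma poly_bstep {x : α → Inp} (b : Bool) {T : α → List (List (List ℕ))} (hx : Poly x)
    (hT : Poly T) : Poly (fun a => bstep (x a) b (T a)) := by
  unfold bstep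
  apply map (F := fun a v => one ((T a).getD v [] ++ cand (x a) b (T a) v))
    (upoly_nn.comp hx).range
  exact poly_one (append (getD (hT.comp (fst id)) (snd id) (const []))
    (poly_cand b (hx.comp (fst id)) (hT.comp (fst id)) (snd id)))

/-- the sizes in the search -/
def OKT (m n k : ℕ) (T : List (List (List ℕ))) : Prop :=
  T.length = n ∧ ∀ t ∈ T, t.length ≤ 1 ∧ ∀ d ∈ t, d.length ≤ k ∧ ∀ c ∈ d, c < m

lemma getD_mem_or {β : Type} (l : List β) (k : ℕ) (e : β) : l.getD k e ∈ l ∨ l.getD k e = e := by
  by_cases h : k < l.length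
  · left
    rw [List.getD_eq_getElem _ _ h]
    exact List.getElem_mem h
  · right
    rw [List.getD_eq_default _ _ (not_lt.1 h)]

lemma OKT.getD {m n k : ℕ} {T : List (List (List ℕ))} (h : OKT m n k T) (v : ℕ) :
    ∀ d ∈ T.getD v [], d.length ≤ k ∧ ∀ c ∈ d, c < m := by
  intro d hd
  rcases getD_mem_or T v [] with h1 | h1
  · exact (h.2 _ h1).2 d hd
  · rw [h1] at hd
    simp at hd

lemma edge_iff {x : Inp} {c u v : ℕ} :
    edge x c u v = true ↔ (c < mm x ∧ u < nn x ∧ v < nn x) ∧ 0 < ent x c u v := by
  simp [edge]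

lemma edgeB_lt {x : Inp} {b : Bool} {c u v : ℕ} (h : edgeB x b c u v = true) :
    c < mm x ∧ u < nn x ∧ v < nn x := by
  cases b
  · obtain ⟨⟨h1, h2, h3⟩, _⟩ := edge_iff.1 h
    exact ⟨h1, h3, h2⟩
  · exact (edge_iff.1 h).1

lemma mem_cand {x : Inp} {b : Bool} {T : List (List (List ℕ))} {v : ℕ} {d : List ℕ} :
    d ∈ cand x b T v ↔ ∃ u c, edgeB x b c u v = true ∧ ∃ d' ∈ T.getD u [], ext b c d' = d := by
  unfold cand
  simp only [List.mem_flatMap, List.mem_range]
  constructor
  · rintro ⟨u, _, c, _, h⟩
    cases he : edgeB x b c u v with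
    | false => rw [he] at h; simp at h
    | true =>
      rw [he, cond_true, List.mem_map] at h
      obtain ⟨d', h1, h2⟩ := h
      exact ⟨u, c, he, d', h1, h2⟩
  · rintro ⟨u, c, he, d', h1, h2⟩
    obtain ⟨h3, h4, h5⟩ := edgeB_lt he
    refine ⟨u, h4, c, h3, ?_⟩
    rw [he, cond_true, List.mem_map]
    exact ⟨d', h1, h2⟩

lemma OKT.step {x : Inp} {b : Bool} {k : ℕ} {T : List (List (List ℕ))}
    (h : OKT (mm x) (nn x) k T) : OKT (mm x) (nn x) (k + 1) (bstep x b T) := by
  unfold bstep
  refine ⟨by simp, ?_⟩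
  intro t ht
  rw [List.mem_map] at ht
  obtain ⟨v, _, rfl⟩ := ht
  rw [one_eq]
  refine ⟨by rw [List.length_take]; omega, ?_⟩
  intro d hd
  have h1 := List.mem_of_mem_take hd
  rw [List.mem_append] at h1
  rcases h1 with h1 | h1
  · obtain ⟨h2, h3⟩ := h.getD v d h1
    exact ⟨by omega, h3⟩
  · obtain ⟨u, c, h2, d', h3, rfl⟩ := mem_cand.1 h1
    obtain ⟨h4, h5⟩ := h.getD u d' h3
    obtain ⟨h6, _, _⟩ := edgeB_lt h2
    cases b
    · simp only [ext, cond_false, List.length_cons, List.mem_cons]
      refine ⟨by omega, ?_⟩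
      rintro a (rfl | ha)
      · exact h6
      · exact h5 a ha
    · simp only [ext, cond_true, List.length_append, List.length_cons, List.length_nil,
        List.mem_append, List.mem_singleton]
      refine ⟨by omega, ?_⟩
      rintro a (ha | rfl)
      · exact h5 a ha
      · exact h6

lemma OKT.init (x : Inp) : OKT (mm x) (nn x) 0 (binit x) := by
  unfold binit
  refine ⟨by simp, ?_⟩
  intro t ht
  rw [List.mem_map] at ht
  obtain ⟨v, _, rfl⟩ := ht
  cases decide (v = 0) <;> simp

lemma OKT.iter (x : Inp) (b : Bool) (k : ℕ) :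
    OKT (mm x) (nn x) k ((bstep x b)^[k] (binit x)) := by
  induction k with
  | zero => exact OKT.init x
  | succ k ih =>
    rw [Function.iterate_succ_apply']
    exact ih.step

lemma OKT.sz_le {m n k : ℕ} {T : List (List (List ℕ))} (h : OKT m n k T) :
    sz T ≤ n * (k * (4 * m + 2) + 4) + 1 := by
  have h1 : ∀ t ∈ T, sz t ≤ k * (4 * m + 2) + 3 := by
    intro t ht
    obtain ⟨h2, h3⟩ := h.2 t ht
    have h4 := sz_le_length_mul t (k * (4 * m + 2) + 1) (by
      intro d hd
      obtain ⟨h5, h6⟩ := h3 d hd
      have h7 := sz_le_length_mul d (4 * m + 1) (by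
        intro c hc
        have h8 := sz_nat_le c
        have h9 := size_le_self c
        have := h6 c hc
        omega)
      refine h7.trans ?_
      have h9 : d.length * (4 * m + 2) ≤ k * (4 * m + 2) := Nat.mul_le_mul_right (4 * m + 2) h5
      exact Nat.add_le_add_right h9 1)
    refine h4.trans ?_
    have := Nat.mul_le_mul_right (k * (4 * m + 2) + 1 + 1) h2
    omega
  have h2 := sz_le_length_mul T _ h1
  rw [h.1] at h2
  exact h2

lemma poly_binit : Poly binit := by
  unfold binit
  apply map (F := fun (_ : Inp) v => bif decide (v = 0) then ([[]] : List (List ℕ)) else [])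
    upoly_nn.range
  exact Poly.cond (decide_eq (snd id) (const 0)) (const _) (const _)

lemma poly_bres (b : Bool) : Poly (fun x => bres x b) := by
  unfold bres
  have hU : UPoly (fun x => nn x * (nn x * (4 * mm x + 2) + 4) + 1) :=
    UPoly.add (UPoly.mul upoly_nn (UPoly.add (UPoly.mul upoly_nn
      (UPoly.add (UPoly.mul (UPoly.const 4) upoly_mm) (UPoly.const 2))) (UPoly.const 4)))
      (UPoly.const 1)
  obtain ⟨q, hq⟩ := hU.sz_le
  have h1 := iterLen (l := fun x : Inp => List.replicate (nn x) ()) (s := binit)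
    (F := fun x T => bstep x b T) upoly_nn poly_binit
    (poly_bstep b (fst id) (snd id)) q (by
      intro x k hk
      rw [List.length_replicate] at hk
      have h2 := (OKT.iter x b k).sz_le
      refine h2.trans (le_trans ?_ (hq x))
      have h6 := length_lt_sz (List.replicate (nn x * (nn x * (4 * mm x + 2) + 4) + 1) ())
      rw [List.length_replicate] at h6
      refine le_trans ?_ h6.le
      have h7 := Nat.mul_le_mul_right (4 * mm x + 2) hk
      have h8 := Nat.mul_le_mul_left (nn x) (Nat.add_le_add_right h7 4)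
      omega)
  exact h1.congr fun x => by rw [List.length_replicate]

lemma poly_path {x : α → Inp} (b : Bool) {v : α → ℕ} (hx : Poly x) (hv : Poly v) :
    Poly (fun a => path (x a) b (v a)) := by
  unfold path
  exact getD (getD ((poly_bres b).comp hx) hv (const [])) (const 0) (const [])

lemma poly_words : Poly words := by
  unfold words
  apply append
  · apply flatMap (F := fun (x : Inp) c => (List.range (nn x)).flatMap fun u =>
      (List.range (nn x)).flatMap fun v =>
        bif edge x c u v then [path x true u ++ c :: path x false v] else []) upoly_mm.range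
    apply flatMap (F := fun (p : Inp × ℕ) u => (List.range (nn p.1)).flatMap fun v =>
        bif edge p.1 p.2 u v then [path p.1 true u ++ p.2 :: path p.1 false v] else [])
        (upoly_nn.comp (fst id)).range
    apply flatMap (F := fun (p : (Inp × ℕ) × ℕ) v =>
        bif edge p.1.1 p.1.2 p.2 v then [path p.1.1 true p.2 ++ p.1.2 :: path p.1.1 false v]
        else []) (upoly_nn.comp (fst (fst id))).range
    apply Poly.cond
    · exact poly_edge (fst (fst (fst id))) (snd (fst (fst id))) (snd (fst id)) (snd id)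
    · apply cons _ (const [])
      exact append (poly_path true (fst (fst (fst id))) (snd (fst id)))
        (cons (snd (fst (fst id))) (poly_path false (fst (fst (fst id))) (snd id)))
    · exact const []
  · apply map (F := fun (x : Inp) v => path x true v ++ path x false v) upoly_nn.range
    exact append (poly_path true (fst id) (snd id)) (poly_path false (fst id) (snd id))

lemma upoly_expo : UPoly expo := by
  unfold expo
  have h1 := upoly_mm
  have h2 := upoly_nn
  have h3 : UPoly (fun x => (words x).length) := UPoly.length poly_words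
  have h4 : UPoly (fun x => 2 * nn x + 1) := UPoly.add (UPoly.mul (UPoly.const 2) h2) (UPoly.const 1)
  exact UPoly.add (UPoly.add (UPoly.add (UPoly.add (UPoly.add (UPoly.const 3) h2)
    (UPoly.mul (UPoly.const 2) h1)) (UPoly.add h3 h1))
    (UPoly.mul (UPoly.const 2) (UPoly.add (UPoly.mul h1 h1) (UPoly.mul h4 h1)))) h4

/-- **The algorithm runs in polynomial time.** -/
theorem poly_alg : Poly alg := by
  unfold alg
  apply map (F := fun (x : Inp) c =>
    2 ^ expo x * ((words x).flatten.filter (fun a => decide (a = c))).length) upoly_mm.range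
  apply mul
  · exact (poly_two_pow upoly_expo).comp (fst id)
  · apply Poly.length
    apply filter (p := fun (p : Inp × ℕ) a => decide (a = p.2))
    · exact flatten (poly_words.comp (fst id))
    · exact decide_eq (snd id) (snd (fst id))

end Poly

/-! ### Correctness of the search -/

/-- the edges of the input -/
def EE (x : Inp) : ℕ → ℕ → ℕ → Prop := fun c u v => edge x c u v = true

lemma bdd_EE (x : Inp) : Bdd (EE x) (mm x) (nn x) := fun _ _ _ h => (edge_iff.1 h).1

/-- a walk from `0` to `v` (`b = true`), or from `v` to `0` -/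
def WkB (x : Inp) : Bool → List ℕ → ℕ → Prop
  | true, d, v => Wk (EE x) d 0 v
  | false, d, v => Wk (EE x) d v 0

lemma wkB_nil (x : Inp) (b : Bool) : WkB x b [] 0 := by
  cases b <;> exact rfl

lemma wkB_nil_iff {x : Inp} {b : Bool} {v : ℕ} : WkB x b [] v ↔ v = 0 := by
  cases b
  · exact Iff.rfl
  · exact eq_comm

lemma WkB.ext {x : Inp} {b : Bool} {d : List ℕ} {c u v : ℕ} (h : WkB x b d u)
    (he : edgeB x b c u v = true) : WkB x b (ext b c d) v := by
  cases b
  · exact ⟨u, he, h⟩
  · exact wk_append.2 ⟨u, h, v, he, rfl⟩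

lemma WkB.exists_ext {x : Inp} {b : Bool} {d : List ℕ} {v : ℕ} (h : WkB x b d v) (hd : d ≠ []) :
    ∃ c u d', d = HP.ext b c d' ∧ edgeB x b c u v = true ∧ WkB x b d' u := by
  cases b
  · cases d with
    | nil => exact absurd rfl hd
    | cons c d =>
      obtain ⟨u, h1, h2⟩ := h
      exact ⟨c, u, d, rfl, h1, h2⟩
  · rcases List.eq_nil_or_concat d with h1 | ⟨d', c, rfl⟩
    · exact absurd h1 hd
    · rw [List.concat_eq_append] at h ⊢
      obtain ⟨u, h1, w, h2, h3⟩ := wk_append.1 h
      have : w = v := h3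
      subst this
      exact ⟨c, u, d', rfl, h2, h1⟩

lemma length_ext (b : Bool) (c : ℕ) (d : List ℕ) : (ext b c d).length = d.length + 1 := by
  cases b <;> simp [ext]

lemma getD_map_range {β : Type} (f : ℕ → β) (n v : ℕ) (e : β) (hv : v < n) :
    ((List.range n).map f).getD v e = f v := by
  rw [List.getD_eq_getElem _ _ (by simpa using hv)]
  simp

/-- the search is correct after `k` rounds -/
def Corr (x : Inp) (b : Bool) (k : ℕ) (T : List (List (List ℕ))) : Prop :=
  ∀ v < nn x, (∀ d ∈ T.getD v [], WkB x b d v ∧ d.length ≤ k) ∧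
    ((∃ d, WkB x b d v ∧ d.length ≤ k) → T.getD v [] ≠ [])

lemma Corr.init (x : Inp) (b : Bool) : Corr x b 0 (binit x) := by
  intro v hv
  unfold binit
  rw [getD_map_range _ _ _ _ hv]
  constructor
  · intro d hd
    by_cases h : v = 0
    · subst h
      simp only [decide_true, cond_true, List.mem_singleton] at hd
      subst hd
      exact ⟨wkB_nil x b, le_rfl⟩
    · simp [h] at hd
  · rintro ⟨d, h1, h2⟩
    have : d = [] := List.length_eq_zero_iff.1 (by omega)
    subst this
    have := wkB_nil_iff.1 h1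
    subst this
    simp

lemma Corr.step {x : Inp} {b : Bool} {k : ℕ} {T : List (List (List ℕ))} (h : Corr x b k T) :
    Corr x b (k + 1) (bstep x b T) := by
  intro v hv
  unfold bstep
  rw [getD_map_range _ _ _ _ hv, one_eq]
  constructor
  · intro d hd
    have h1 := List.mem_of_mem_take hd
    rw [List.mem_append] at h1
    rcases h1 with h1 | h1
    · obtain ⟨h2, h3⟩ := (h v hv).1 d h1
      exact ⟨h2, by omega⟩
    · obtain ⟨u, c, h2, d', h3, rfl⟩ := mem_cand.1 h1
      obtain ⟨h4, h5, _⟩ := edgeB_lt h2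
      obtain ⟨h6, h7⟩ := (h u h5).1 d' h3
      refine ⟨h6.ext h2, ?_⟩
      rw [length_ext]
      omega
  · rintro ⟨d, h1, h2⟩
    have h3 : T.getD v [] ++ cand x b T v ≠ [] := by
      by_cases hk : d.length ≤ k
      · have h9 := (h v hv).2 ⟨d, h1, hk⟩
        intro h10
        rw [List.append_eq_nil_iff] at h10
        exact h9 h10.1
      · have hd : d ≠ [] := by
          rintro rfl
          simp at hk
        obtain ⟨c, u, d', rfl, h4, h5⟩ := h1.exists_ext hd
        obtain ⟨_, h6, _⟩ := edgeB_lt h4
        rw [length_ext] at h2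
        have h7 := (h u h6).2 ⟨d', h5, by omega⟩
        obtain ⟨e, he⟩ := List.exists_mem_of_ne_nil _ h7
        have h8 : ext b c e ∈ cand x b T v := mem_cand.2 ⟨u, c, h4, e, he, rfl⟩
        intro h9
        rw [List.append_eq_nil_iff] at h9
        rw [h9.2] at h8
        simp at h8
    obtain ⟨a, l, hal⟩ := List.exists_cons_of_ne_nil h3
    rw [hal]
    simp

lemma Corr.iter (x : Inp) (b : Bool) (k : ℕ) : Corr x b k ((bstep x b)^[k] (binit x)) := by
  induction k with
  | zero => exact Corr.init x b
  | succ k ih =>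
    rw [Function.iterate_succ_apply']
    exact ih.step

lemma path_spec {x : Inp} {b : Bool} {v : ℕ} (hv : v < nn x)
    (h : ∃ d, WkB x b d v ∧ d.length ≤ nn x) :
    WkB x b (path x b v) v ∧ (path x b v).length ≤ nn x := by
  obtain ⟨h1, h2⟩ := Corr.iter x b (nn x) v hv
  have h3 := h2 h
  apply h1
  unfold path bres
  obtain ⟨a, l, hal⟩ := List.exists_cons_of_ne_nil h3
  rw [hal]
  simp

lemma good_alg {x : Inp} (hn : 0 < nn x) {γ : ℕ → ℕ}
    (hγ : ∀ i < nn x, ∀ j < nn x, ∃ d, Wk (EE x) d i j ∧ ∀ c < mm x, d.count c = γ c) :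
    Good (EE x) (mm x) (nn x) (path x true) (path x false) (words x) := by
  have hb := bdd_EE x
  have h1 : ∀ v < nn x, Wk (EE x) (path x true v) 0 v ∧ (path x true v).length ≤ nn x := by
    intro v hv
    obtain ⟨d, hd, _⟩ := hγ 0 hn v hv
    obtain ⟨d', hd', hl⟩ := exists_short hb hn ⟨d, hd⟩
    exact path_spec (b := true) hv ⟨d', hd', hl.le⟩
  have h2 : ∀ v < nn x, Wk (EE x) (path x false v) v 0 ∧ (path x false v).length ≤ nn x := by
    intro v hv
    obtain ⟨d, hd, _⟩ := hγ v hv 0 hn
    obtain ⟨d', hd', hl⟩ := exists_short hb hv ⟨d, hd⟩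
    exact path_spec (b := false) hv ⟨d', hd', hl.le⟩
  have h3 : ∀ w, w ∈ words x ↔ (∃ c u v, EE x c u v ∧ w = path x true u ++ c :: path x false v) ∨
      ∃ v < nn x, w = path x true v ++ path x false v := by
    intro w
    unfold words
    simp only [List.mem_append, List.mem_flatMap, List.mem_map, List.mem_range]
    constructor
    · rintro (⟨c, _, u, _, v, _, h⟩ | ⟨v, hv, rfl⟩)
      · left
        cases he : edge x c u v with
        | false => rw [he] at h; simp at h
        | true =>
          rw [he, cond_true, List.mem_singleton] at h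
          exact ⟨c, u, v, he, h⟩
      · right
        exact ⟨v, hv, rfl⟩
    · rintro (⟨c, u, v, he, rfl⟩ | ⟨v, hv, rfl⟩)
      · left
        obtain ⟨h4, h5, h6⟩ := hb _ _ _ he
        refine ⟨c, h4, u, h5, v, h6, ?_⟩
        have : edge x c u v = true := he
        rw [this]
        simp
      · right
        exact ⟨v, hv, rfl⟩
  refine ⟨hb, hn, fun v hv => (h1 v hv).1, fun v hv => (h2 v hv).1, fun v hv => (h1 v hv).2,
    fun v hv => (h2 v hv).2, fun c u v he => (h3 _).2 (Or.inl ⟨c, u, v, he, rfl⟩),
    fun v hv => (h3 _).2 (Or.inr ⟨v, hv, rfl⟩), ?_, ?_⟩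
  · intro w hw
    rcases (h3 w).1 hw with ⟨c, u, v, he, rfl⟩ | ⟨v, hv, rfl⟩
    · obtain ⟨_, h5, h6⟩ := hb _ _ _ he
      exact wk_append.2 ⟨u, (h1 u h5).1, v, he, (h2 v h6).1⟩
    · exact wk_append.2 ⟨v, (h1 v hv).1, (h2 v hv).1⟩
  · intro w hw
    rcases (h3 w).1 hw with ⟨c, u, v, he, rfl⟩ | ⟨v, hv, rfl⟩
    · obtain ⟨_, h5, h6⟩ := hb _ _ _ he
      have := (h1 u h5).2
      have := (h2 v h6).2
      simp only [List.length_append, List.length_cons]
      omega
    · have := (h1 v hv).2
      have := (h2 v hv).2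
      simp only [List.length_append]
      omega

/-! ### The exponent -/

lemma DD_le (m L : ℕ) : DD m L ≤ 2 ^ (m * m + L * m) := by
  unfold DD
  rw [pow_add, pow_mul, pow_mul]
  apply Nat.mul_le_mul
  · exact (Nat.factorial_le_pow m).trans (Nat.pow_le_pow_left Nat.lt_two_pow_self.le _)
  · exact Nat.pow_le_pow_left Nat.lt_two_pow_self.le _

lemma KK_le (m I L n : ℕ) : 2 * n * KK m I L ≤
    2 ^ (3 + n + 2 * m + I + 2 * (m * m + L * m) + L) := by
  set D := m * m + L * m with hD
  have h0 := DD_le m L
  rw [← hD] at h0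
  have hm : m ≤ 2 ^ m := Nat.lt_two_pow_self.le
  have hI : I ≤ 2 ^ I := Nat.lt_two_pow_self.le
  have hL : L ≤ 2 ^ L := Nat.lt_two_pow_self.le
  have hn : n ≤ 2 ^ n := Nat.lt_two_pow_self.le
  have h1 : L + I * (DD m L * L) ≤ 2 ^ (I + D + L + 1) := by
    have h2 : I * (DD m L * L) ≤ 2 ^ (I + D + L) := by
      calc I * (DD m L * L) ≤ 2 ^ I * (2 ^ D * 2 ^ L) :=
            Nat.mul_le_mul hI (Nat.mul_le_mul h0 hL)
        _ = 2 ^ (I + D + L) := by ring
    have h3 : 2 ^ L ≤ 2 ^ (I + D + L) := Nat.pow_le_pow_right (by norm_num) (by omega)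
    rw [pow_succ]
    omega
  have h2 : m * (m * (L + I * (DD m L * L)) * DD m L) ≤ 2 ^ (2 * m + I + 2 * D + L + 1) := by
    calc m * (m * (L + I * (DD m L * L)) * DD m L) ≤ 2 ^ m * (2 ^ m * 2 ^ (I + D + L + 1) * 2 ^ D) :=
          Nat.mul_le_mul hm (Nat.mul_le_mul (Nat.mul_le_mul hm h1) h0)
      _ = 2 ^ (2 * m + I + 2 * D + L + 1) := by ring
  have h3 : KK m I L ≤ 2 ^ (2 * m + I + 2 * D + L + 2) := by
    unfold KK
    have h4 : 2 ^ D ≤ 2 ^ (2 * m + I + 2 * D + L + 1) :=
      Nat.pow_le_pow_right (by norm_num) (by omega)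
    have h5 : 2 ^ (2 * m + I + 2 * D + L + 2) = 2 ^ (2 * m + I + 2 * D + L + 1) * 2 := pow_succ _ _
    omega
  calc 2 * n * KK m I L ≤ 2 * 2 ^ n * 2 ^ (2 * m + I + 2 * D + L + 2) :=
        Nat.mul_le_mul (Nat.mul_le_mul_left 2 hn) h3
    _ = 2 ^ (3 + n + 2 * m + I + 2 * D + L) := by ring

lemma length_alg (x : Inp) : (alg x).length = mm x := by simp [alg]

lemma alg_getD (x : Inp) {c : ℕ} (hc : c < mm x) :
    (alg x).getD c 0 = 2 ^ expo x * beta (words x) c := by
  unfold alg
  rw [getD_map_range _ _ _ _ hc, beta, List.count_eq_length_filter]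
  congr 2

/-- **The algorithm is correct.** -/
theorem alg_spec {x : Inp} (hn : 0 < nn x) {γ : ℕ → ℕ}
    (hγ : ∀ i < nn x, ∀ j < nn x, ∃ d, Wk (EE x) d i j ∧ ∀ c < mm x, d.count c = γ c)
    (hpos : ∃ c < mm x, 0 < γ c) :
    (∃ c < mm x, 0 < (alg x).getD c 0) ∧
    ∀ i < nn x, ∀ j < nn x, ∃ d, Wk (EE x) d i j ∧ ∀ c < mm x, d.count c = (alg x).getD c 0 := by
  have hg := good_alg hn hγ
  constructor
  · obtain ⟨c, hc, hc0⟩ := hpos
    obtain ⟨d, h1, h2⟩ := hγ 0 hn 0 hn
    have h3 : c ∈ d := List.count_pos_iff.1 (by rw [h2 c hc]; exact hc0)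
    obtain ⟨u, v, huv⟩ := wk_used h1 c h3
    refine ⟨c, hc, ?_⟩
    rw [alg_getD x hc]
    apply Nat.mul_pos (by positivity)
    unfold beta
    rw [List.count_pos_iff, List.mem_flatten]
    exact ⟨_, hg.edge c u v huv, by simp⟩
  · intro i hi j hj
    obtain ⟨d, h1, h2⟩ := hg.main hγ (N := 2 ^ expo x) (by
      unfold KW
      have := KK_le (mm x) ((words x).length + mm x) (2 * nn x + 1) (nn x)
      exact this) hi hj
    exact ⟨d, h1, fun c hc => by rw [h2 c hc, alg_getD x hc]⟩

end Pool.Agent.Q330.HP
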