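import Mathlib
import Pool.Agent.Q330.HP.Alg

set_option autoImplicit false

/-!
# Hurwitz products and walks
-/

namespace Pool.Agent.Q330.HP

open Finset

/-- The Hurwitz product of the family `A` with the colour vector `α`: the sum of all products
`A_{d_1} A_{d_2} ⋯` of length `∑ i, α i` in which, for all `i`, exactly `α i` of the factors are
`A i`. -/
def hurwitz {m n : ℕ} (A : Fin m → Matrix (Fin n) (Fin n) ℚ) (α : Fin m → ℕ) :
    Matrix (Fin n) (Fin n) ℚ :=
  ∑ d ∈ univ.filter (fun d : Fin (∑ i, α i) → Fin m =>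
      ∀ i, (univ.filter fun k => d k = i).card = α i),
    (List.ofFn fun k => A (d k)).prod

/-- all entries are positive -/
def Positive {n : ℕ} (M : Matrix (Fin n) (Fin n) ℚ) : Prop := ∀ u v, 0 < M u v

/-- some Hurwitz product of length at least one is positive -/
def MPrimitive {m n : ℕ} (A : Fin m → Matrix (Fin n) (Fin n) ℚ) : Prop :=
  ∃ α : Fin m → ℕ, 1 ≤ ∑ i, α i ∧ Positive (hurwitz A α)

/-- the family as an input: the list of the matrices, each given by the list of its rows -/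
def code {m n : ℕ} (A : Fin m → Matrix (Fin n) (Fin n) ℚ) : List (List (List ℚ)) :=
  List.ofFn fun c => List.ofFn fun u => List.ofFn fun v => A c u v

variable {m n : ℕ} {A : Fin m → Matrix (Fin n) (Fin n) ℚ}

/-- the edges of a family -/
def EA (A : Fin m → Matrix (Fin n) (Fin n) ℚ) : ℕ → ℕ → ℕ → Prop := fun c u v =>
  ∃ (hc : c < m) (hu : u < n) (hv : v < n), 0 < A ⟨c, hc⟩ ⟨u, hu⟩ ⟨v, hv⟩

lemma prod_nonneg (hA : ∀ c u v, 0 ≤ A c u v) (l : List (Fin m)) (i j : Fin n) :
    0 ≤ (l.map A).prod i j := by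
  induction l generalizing i with
  | nil =>
    rw [List.map_nil, List.prod_nil, Matrix.one_apply]
    split_ifs <;> norm_num
  | cons c l ih =>
    rw [List.map_cons, List.prod_cons, Matrix.mul_apply]
    exact Finset.sum_nonneg fun k _ => mul_nonneg (hA _ _ _) (ih k)

lemma prod_pos_iff (hA : ∀ c u v, 0 ≤ A c u v) (l : List (Fin m)) (i j : Fin n) :
    0 < (l.map A).prod i j ↔ Wk (EA A) (l.map Fin.val) i j := by
  induction l generalizing i with
  | nil =>
    rw [List.map_nil, List.prod_nil, Matrix.one_apply, List.map_nil]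
    constructor
    · intro h
      by_contra h1
      rw [if_neg (fun h2 => h1 (by rw [h2]; rfl))] at h
      exact lt_irrefl _ h
    · intro h
      have : i = j := Fin.ext h
      rw [if_pos this]
      norm_num
  | cons c l ih =>
    rw [List.map_cons, List.prod_cons, Matrix.mul_apply, List.map_cons]
    constructor
    · intro h
      obtain ⟨k, _, hk⟩ := (Finset.sum_pos_iff_of_nonneg
        (fun k _ => mul_nonneg (hA _ _ _) (prod_nonneg hA l k j))).1 h
      have h1 : 0 < A c i k := by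
        rcases (hA c i k).lt_or_eq with h2 | h2
        · exact h2
        · rw [← h2, zero_mul] at hk
          exact absurd hk (lt_irrefl _)
      have h2 : 0 < (l.map A).prod k j := by
        rcases (prod_nonneg hA l k j).lt_or_eq with h3 | h3
        · exact h3
        · rw [← h3, mul_zero] at hk
          exact absurd hk (lt_irrefl _)
      exact ⟨k, ⟨c.2, i.2, k.2, h1⟩, (ih k).1 h2⟩
    · rintro ⟨k, ⟨_, _, hk, h1⟩, h2⟩
      refine (Finset.sum_pos_iff_of_nonneg
        (fun k _ => mul_nonneg (hA _ _ _) (prod_nonneg hA l k j))).2 ⟨⟨k, hk⟩, mem_univ _, ?_⟩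
      exact mul_pos h1 ((ih ⟨k, hk⟩).2 h2)

lemma count_ofFn' {N : ℕ} (d : Fin N → Fin m) (c : Fin m) :
    (List.ofFn d).count c = (univ.filter fun k => d k = c).card := by
  have h := Fin.card_filter_univ_eq_vector_get_eq_count c (List.Vector.ofFn d)
  rw [List.Vector.toList_ofFn] at h
  rw [← h]
  congr 1
  ext k
  simp

lemma exists_lift (w : List ℕ) (hw : ∀ c ∈ w, c < m) : ∃ l : List (Fin m), l.map Fin.val = w := by
  induction w with
  | nil => exact ⟨[], rfl⟩
  | cons c w ih =>
    obtain ⟨l, hl⟩ := ih fun c' hc' => hw c' (List.mem_cons_of_mem _ hc')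
    exact ⟨⟨c, hw c List.mem_cons_self⟩ :: l, by rw [List.map_cons, hl]⟩

lemma length_eq_sum_count (l : List (Fin m)) : l.length = ∑ c, l.count c := by
  induction l with
  | nil => simp
  | cons a l ih =>
    rw [List.length_cons, ih]
    simp only [List.count_cons, Finset.sum_add_distrib]
    congr 1
    rw [Finset.sum_eq_single a]
    · simp
    · intro b _ hb
      simp [hb.symm]
    · simp

lemma hurwitz_pos_iff (hA : ∀ c u v, 0 ≤ A c u v) (α : Fin m → ℕ) (i j : Fin n) :
    0 < hurwitz A α i j ↔ ∃ w, Wk (EA A) w i j ∧ ∀ c : Fin m, w.count (c : ℕ) = α c := by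
  have hof : ∀ d : Fin (∑ i, α i) → Fin m,
      (List.ofFn fun k => A (d k)) = (List.ofFn d).map A := by
    intro d
    rw [List.map_ofFn]
    rfl
  have hcount : ∀ (l : List (Fin m)) (c : Fin m), (l.map Fin.val).count (c : ℕ) = l.count c := by
    intro l c
    exact List.count_map_of_injective _ _ Fin.val_injective _
  unfold hurwitz
  rw [Matrix.sum_apply]
  rw [Finset.sum_pos_iff_of_nonneg (fun d _ => by rw [hof]; exact prod_nonneg hA _ _ _)]
  constructor
  · rintro ⟨d, hd, h⟩
    rw [Finset.mem_filter] at hd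
    rw [hof, prod_pos_iff hA] at h
    exact ⟨_, h, fun c => by rw [hcount, count_ofFn']; exact hd.2 c⟩
  · rintro ⟨w, hw, hc⟩
    obtain ⟨l, rfl⟩ := exists_lift w (m := m) (fun c hc => by
      obtain ⟨u, v, h, _⟩ := wk_used hw c hc
      exact h)
    have hlen : l.length = ∑ i, α i := by
      rw [length_eq_sum_count]
      exact Finset.sum_congr rfl fun c _ => by rw [← hc c, hcount]
    have hget : List.ofFn (fun k : Fin (∑ i, α i) => l.get (Fin.cast hlen.symm k)) = l := by
      conv_rhs => rw [← List.ofFn_get l]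
      exact (List.ofFn_congr hlen _).symm
    refine ⟨fun k => l.get (Fin.cast hlen.symm k), ?_, ?_⟩
    · rw [Finset.mem_filter]
      refine ⟨mem_univ _, fun c => ?_⟩
      rw [← count_ofFn', hget, ← hc c, hcount]
    · rw [hof, hget, prod_pos_iff hA]
      exact hw

lemma mm_code (A : Fin m → Matrix (Fin n) (Fin n) ℚ) : mm (code A) = m := by
  simp [mm, code]

lemma nn_code (A : Fin m → Matrix (Fin n) (Fin n) ℚ) (hm : 0 < m) : nn (code A) = n := by
  unfold nn code
  rw [List.getD_eq_getElem _ _ (by simpa using hm)]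
  simp

lemma ent_code (A : Fin m → Matrix (Fin n) (Fin n) ℚ) {c u v : ℕ} (hc : c < m) (hu : u < n)
    (hv : v < n) : ent (code A) c u v = A ⟨c, hc⟩ ⟨u, hu⟩ ⟨v, hv⟩ := by
  have key : ∀ {β : Type} {N : ℕ} (f : Fin N → β) (k : ℕ) (e : β) (hk : k < N),
      (List.ofFn f).getD k e = f ⟨k, hk⟩ := by
    intro β N f k e hk
    rw [List.getD_eq_getElem _ _ (by simpa using hk), List.getElem_ofFn]
  unfold ent code
  rw [key _ _ _ hc, key _ _ _ hu, key _ _ _ hv]

lemma EE_code (A : Fin m → Matrix (Fin n) (Fin n) ℚ) (hm : 0 < m) : EE (code A) = EA A := by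
  funext c u v
  apply propext
  unfold EE EA
  rw [edge_iff, mm_code, nn_code A hm]
  constructor
  · rintro ⟨⟨h1, h2, h3⟩, h4⟩
    exact ⟨h1, h2, h3, by rwa [ent_code A h1 h2 h3] at h4⟩
  · rintro ⟨h1, h2, h3, h4⟩
    exact ⟨⟨h1, h2, h3⟩, by rwa [ent_code A h1 h2 h3]⟩

/-- **Correctness.** -/
theorem alg_correct (hn : 0 < n) (hA : ∀ c u v, 0 ≤ A c u v) (h : MPrimitive A) :
    ∃ α : Fin m → ℕ, alg (code A) = List.ofFn α ∧ 1 ≤ ∑ i, α i ∧ Positive (hurwitz A α) := by
  obtain ⟨γ, h1, h2⟩ := h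
  have hm : 0 < m := by
    rcases Nat.eq_zero_or_pos m with h0 | h0
    · subst h0
      simp at h1
    · exact h0
  obtain ⟨c₀, _, hc₀⟩ := Finset.exists_ne_zero_of_sum_ne_zero
    (show ∑ i, γ i ≠ 0 by omega)
  have hE := EE_code A hm
  have hmm := mm_code A
  have hnn := nn_code A hm
  have hγ : ∀ i < nn (code A), ∀ j < nn (code A), ∃ d, Wk (EE (code A)) d i j ∧
      ∀ c < mm (code A), d.count c = (fun c => if hc : c < m then γ ⟨c, hc⟩ else 0) c := by
    rw [hE, hmm, hnn]
    intro i hi j hj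
    obtain ⟨w, hw, hc⟩ := (hurwitz_pos_iff hA γ ⟨i, hi⟩ ⟨j, hj⟩).1 (h2 _ _)
    refine ⟨w, hw, fun c hc' => ?_⟩
    simp only [dif_pos hc']
    exact hc ⟨c, hc'⟩
  obtain ⟨⟨c₁, hc₁, hc₂⟩, h4⟩ := alg_spec (x := code A) (by omega) hγ
    ⟨c₀, by rw [hmm]; exact c₀.2, by
      simp only [Fin.is_lt, ↓reduceDIte, Fin.eta]
      omega⟩
  rw [hmm] at hc₁
  refine ⟨fun c => (alg (code A)).getD c 0, ?_, ?_, ?_⟩
  · apply List.ext_getElem
    · rw [length_alg, mm_code, List.length_ofFn]
    · intro k hk1 hk2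
      rw [List.getElem_ofFn]
      exact (List.getD_eq_getElem _ _ hk1).symm
  · have h5 : (alg (code A)).getD c₁ 0 ≤ ∑ i : Fin m, (alg (code A)).getD (i : ℕ) 0 :=
      Finset.single_le_sum (f := fun i : Fin m => (alg (code A)).getD (i : ℕ) 0)
        (fun _ _ => Nat.zero_le _) (mem_univ ⟨c₁, hc₁⟩)
    exact le_trans hc₂ h5
  · intro i j
    rw [hurwitz_pos_iff hA]
    obtain ⟨d, hd1, hd2⟩ := h4 i (by rw [hnn]; exact i.2) j (by rw [hnn]; exact j.2)
    rw [hE] at hd1
    exact ⟨d, hd1, fun c => hd2 c (by rw [hmm]; exact c.2)⟩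

end Pool.Agent.Q330.HP
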